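import Pool.Agent.Q98.SPN.Stm

/-!
Project GSP, package NRM: the norm of the convolution operator on a finite group is the maximum of
the norms of the blocks of the group algebra.
-/

set_option autoImplicit false

open scoped Matrix.Norms.L2Operator Matrix ComplexOrder
open Finset

namespace Pool.Agent.U810.GSP.NRM

open Pool.Agent.Q98.SPN

variable {G : Type} [Group G] [Fintype G]

lemma coeff_elt (v : G → ℂ) (g : G) : (elt v).coeff g = v g := by
  classical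
  unfold elt
  rw [MonoidAlgebra.coeff_sum, Finsupp.finset_sum_apply]
  simp [MonoidAlgebra.coeff_single, Finsupp.single_apply]

lemma elt_coeff (a : MonoidAlgebra ℂ G) : elt (fun g => a.coeff g) = a := by
  apply MonoidAlgebra.coeff_injective
  ext g
  rw [coeff_elt]

lemma elt_mul (x v : G → ℂ) : elt x * elt v = elt (conv x *ᵥ v) := by
  classical
  unfold elt
  rw [Finset.sum_mul_sum, Finset.sum_comm]
  have key : ∀ k : G, ∑ g : G, MonoidAlgebra.single g (x g) * MonoidAlgebra.single k (v k) =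
      ∑ h : G, MonoidAlgebra.single h (x (h * k⁻¹) * v k) := by
    intro k
    refine Fintype.sum_equiv (Equiv.mulRight k) _ _ (fun g => ?_)
    rw [MonoidAlgebra.single_mul_single]
    simp
  simp_rw [key]
  rw [Finset.sum_comm]
  refine Finset.sum_congr rfl fun h _ => ?_
  apply MonoidAlgebra.coeff_injective
  rw [MonoidAlgebra.coeff_sum]
  simp only [MonoidAlgebra.coeff_single]
  ext g
  rw [Finsupp.finset_sum_apply]
  simp only [Finsupp.single_apply]
  by_cases hg : h = g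
  · simp [hg, conv, Matrix.mulVec, dotProduct]
  · simp [hg]

lemma norm_sq_le (A : Matrix G G ℂ) [DecidableEq G] (v : G → ℂ) :
    ∑ g, ‖(A *ᵥ v) g‖ ^ 2 ≤ ‖A‖ ^ 2 * ∑ g, ‖v g‖ ^ 2 := by
  have h := A.l2_opNorm_mulVec (WithLp.toLp 2 v)
  have h2 := pow_le_pow_left₀ (norm_nonneg _) h 2
  rw [mul_pow, EuclideanSpace.norm_sq_eq, EuclideanSpace.norm_sq_eq] at h2
  exact h2

lemma norm_le_of (A : Matrix G G ℂ) [DecidableEq G] (c : ℝ) (hc : 0 ≤ c)
    (h : ∀ v : G → ℂ, ∑ g, ‖(A *ᵥ v) g‖ ^ 2 ≤ c ^ 2 * ∑ g, ‖v g‖ ^ 2) : ‖A‖ ≤ c := by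
  rw [Matrix.l2_opNorm_def]
  refine ContinuousLinearMap.opNorm_le_bound _ hc fun v => ?_
  have h1 := h (WithLp.ofLp v)
  refine le_of_sq_le_sq ?_ (by positivity)
  rw [mul_pow, EuclideanSpace.norm_sq_eq, EuclideanSpace.norm_sq_eq]
  exact h1

lemma tr_nonneg {d : ℕ} (Y : Matrix (Fin d) (Fin d) ℂ) : 0 ≤ (Matrix.trace (Yᴴ * Y)).re := by
  have h := (Matrix.posSemidef_conjTranspose_mul_self Y).trace_nonneg
  exact (Complex.le_def.1 h).1

theorem t_NRM : S_PLA → S_HS → S_NRM := by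
  intro hP hH G _ _ _ k d Ψ hΨ x
  have hG : (0 : ℝ) < Fintype.card G := by exact_mod_cast Fintype.card_pos
  have hco : ∀ v : G → ℂ, ∀ g, (elt x * elt v).coeff g = (conv x *ᵥ v) g := by
    intro v g
    rw [elt_mul, coeff_elt]
  have hpl1 : ∀ v : G → ℂ, (Fintype.card G : ℝ) * ∑ g, ‖v g‖ ^ 2 =
      ∑ i, (d i : ℝ) * (Matrix.trace ((Ψ (elt v) i)ᴴ * Ψ (elt v) i)).re := by
    intro v
    have h := hP G k d Ψ hΨ (elt v)
    simp only [coeff_elt] at h
    exact h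
  have hpl2 : ∀ v : G → ℂ, (Fintype.card G : ℝ) * ∑ g, ‖(conv x *ᵥ v) g‖ ^ 2 =
      ∑ i, (d i : ℝ) * (Matrix.trace ((Ψ (elt x) i * Ψ (elt v) i)ᴴ *
        (Ψ (elt x) i * Ψ (elt v) i))).re := by
    intro v
    have h := hP G k d Ψ hΨ (elt x * elt v)
    simp only [hco, map_mul, Pi.mul_apply] at h
    exact h
  refine ⟨fun c hc hx => ?_, fun i => ?_⟩
  · refine norm_le_of _ c hc fun v => ?_
    have h1 : (Fintype.card G : ℝ) * ∑ g, ‖(conv x *ᵥ v) g‖ ^ 2 ≤
        c ^ 2 * ((Fintype.card G : ℝ) * ∑ g, ‖v g‖ ^ 2) := by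
      rw [hpl2, hpl1 v, Finset.mul_sum]
      refine Finset.sum_le_sum fun i _ => ?_
      have h2 := (hH (d i) (Ψ (elt x) i) (Ψ (elt v) i)).1
      have h3 : ‖Ψ (elt x) i‖ ^ 2 * (Matrix.trace ((Ψ (elt v) i)ᴴ * Ψ (elt v) i)).re ≤
          c ^ 2 * (Matrix.trace ((Ψ (elt v) i)ᴴ * Ψ (elt v) i)).re :=
        mul_le_mul_of_nonneg_right (pow_le_pow_left₀ (norm_nonneg _) (hx i) 2) (tr_nonneg _)
      have h4 := mul_le_mul_of_nonneg_left (h2.trans h3) (Nat.cast_nonneg (α := ℝ) (d i))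
      calc _ ≤ _ := h4
        _ = _ := by ring
    have h5 : (Fintype.card G : ℝ) * ∑ g, ‖(conv x *ᵥ v) g‖ ^ 2 ≤
        (Fintype.card G : ℝ) * (c ^ 2 * ∑ g, ‖v g‖ ^ 2) := by
      calc _ ≤ _ := h1
        _ = _ := by ring
    exact le_of_mul_le_mul_left h5 hG
  · refine (hH (d i) (Ψ (elt x) i) 0).2 _ (norm_nonneg _) (hΨ.pos i) fun Z => ?_
    set a : MonoidAlgebra ℂ G := Ψ.symm (Pi.single i Z) with ha
    have hΨa : Ψ a = Pi.single i Z := by rw [ha, AlgEquiv.apply_symm_apply]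
    have h1 := hpl1 (fun g => a.coeff g)
    have h2 := hpl2 (fun g => a.coeff g)
    rw [elt_coeff, hΨa] at h1 h2
    rw [Finset.sum_eq_single i (by
      intro j _ hj
      simp [Pi.single_eq_of_ne hj]) (by simp), Pi.single_eq_same] at h1 h2
    have h3 := norm_sq_le (conv x) (fun g => a.coeff g)
    have h4 := mul_le_mul_of_nonneg_left h3 hG.le
    have hd : (0 : ℝ) < d i := by exact_mod_cast hΨ.pos i
    have h5 : (d i : ℝ) * (Matrix.trace ((Ψ (elt x) i * Z)ᴴ * (Ψ (elt x) i * Z))).re ≤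
        (d i : ℝ) * (‖conv x‖ ^ 2 * (Matrix.trace (Zᴴ * Z)).re) := by
      rw [← h2]
      calc _ ≤ _ := h4
        _ = ‖conv x‖ ^ 2 * ((Fintype.card G : ℝ) * ∑ g, ‖a.coeff g‖ ^ 2) := by ring
        _ = _ := by rw [h1]; ring
    exact le_of_mul_le_mul_left h5 hd

end Pool.Agent.U810.GSP.NRM
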